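import Pool.Agent.Q161.ESM.Stm4
import Pool.Agent.Q124.ESM.REL
import Pool.Agent.Q224.ESM.FRX
import Pool.Agent.Q241.ESM.Teq

/-! Project ESG (helper161), job RELG: from the Selmer elements to the function `z`. -/

set_option autoImplicit false

namespace Pool.Agent.Q96.ESG

open Polynomial NumberField IsDedekindDomain Finset Pool.Agent.Q161.ESM
open Pool.Agent.Q51.EL (Abv Par)
open Pool.Agent.Q161.EA (Nice)
open Pool.Agent.Q239.EL (prime_unique)
open Pool.Agent.Q124.ESM (dvs mem_dvs)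
open Pool.Agent.Q241.ESM (val_mv)

theorem gd1_mono {K : Type} [Field K] [NumberField K] {L : Type} [Field L] [NumberField L]
    {Bs : Type} [Field Bs] {inc : Bs →+* L} {th : 𝓞 L} {B B' : ℕ} {D : ℤ} {δ : L}
    (h : Gd1 K inc th B D δ) (hB : B ∣ B') : Gd1 K inc th B' D δ :=
  ⟨fun l hl hlB => h.even l hl fun h' => hlB (h'.trans hB),
    fun l hl hlB => h.odd l hl fun h' => hlB (h'.trans hB)⟩

theorem val_of_par0 {K : Type} [Field K] [NumberField K] {w : HeightOneSpectrum (𝓞 K)} {x : K}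
    (h : Par w x 0) (h' : w.valuation K x = 1 ∨ w.valuation K x = WithZero.exp (-1 : ℤ)) :
    w.valuation K x = 1 := by
  rcases h' with h' | h'
  · exact h'
  · obtain ⟨k, hk⟩ := h
    rw [h', WithZero.exp_inj] at hk
    omega

theorem val_of_par1 {K : Type} [Field K] [NumberField K] {w : HeightOneSpectrum (𝓞 K)} {x : K}
    (h : Par w x 1) (h' : w.valuation K x = 1 ∨ w.valuation K x = WithZero.exp (-1 : ℤ)) :
    w.valuation K x = WithZero.exp (-1 : ℤ) := by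
  rcases h' with h' | h'
  · obtain ⟨k, hk⟩ := h
    rw [h', ← WithZero.exp_zero, WithZero.exp_inj] at hk
    omega
  · exact h'

theorem zmod2_cases (x : ZMod 2) : x = 0 ∨ x = 1 := by
  revert x
  decide

section

variable {C : Type} {K : Type} [Field K] [NumberField K] {L : C → Type} [∀ c, Field (L c)]
  [∀ c, NumberField (L c)] {Bs : C → Type} [∀ c, Field (Bs c)]
  {V : Type} [AddCommGroup V] [DistribMulAction (K ≃ₐ[ℚ] K) V]

/-- the type is unique -/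
theorem tpg_unique {inc : (c : C) → Bs c →+* L c} {cd : V →+ ((c : C) → (L c →+* K) → ZMod 2)}
    (hV : VB inc cd) {α : (c : C) → 𝓞 (L c)} {w : HeightOneSpectrum (𝓞 K)} {t t' : V}
    (h : TpG cd α w t) (h' : TpG cd α w t') : t = t' := by
  apply hV.inj
  funext c ι
  have h1 : (1 : WithZero (Multiplicative ℤ)) ≠ WithZero.exp (-1 : ℤ) := by
    rw [← WithZero.exp_zero]
    intro h
    rw [WithZero.exp_inj] at h
    omega
  rcases zmod2_cases (cd t c ι) with h2 | h2 <;> rcases zmod2_cases (cd t' c ι) with h3 | h3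
  · rw [h2, h3]
  · exact absurd (((h c ι).1 h2).symm.trans ((h' c ι).2 h3)) h1
  · exact absurd (((h' c ι).1 h3).symm.trans ((h c ι).2 h2)) h1
  · rw [h2, h3]

/-- the types are equivariant -/
theorem tpg_mv {inc : (c : C) → Bs c →+* L c} {cd : V →+ ((c : C) → (L c →+* K) → ZMod 2)}
    (hV : VB inc cd) {α : (c : C) → 𝓞 (L c)} {w w' : HeightOneSpectrum (𝓞 K)} {g : K ≃ₐ[ℚ] K}
    (hM : Mv g w w') {t : V} (h : TpG cd α w t) : TpG cd α w' (g • t) := by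
  intro c ι'
  obtain ⟨ι, rfl⟩ : ∃ ι : L c →+* K, ι' = cp g ι := by
    refine ⟨cp g.symm ι', ?_⟩
    ext x
    change ι' x = g (g.symm (ι' x))
    rw [AlgEquiv.apply_symm_apply]
  have h1 : cd (g • t) c (cp g ι) = cd t c ι := hV.eqv g t c ι
  have h2 : w'.valuation K (cp g ι (α c : L c)) = w.valuation K (ι (α c : L c)) :=
    val_mv hM _
  rw [h1, h2]
  exact h c ι

end

/-- **RELG** -/
theorem relg : S_NRM → S_ZEX → S_QAG → S_QDG → S_RELG := by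
  classical
  intro hNRM hZEX hQAG hQDG C _ L Bs _ _ _ K _ _ _ inc th hDat V _ _ _ cd hV ι _ Lf _ _ em rp
    hRp B1 hB1
  obtain ⟨Bz, C0, K0, hBz, hC0, hZEX⟩ := hZEX K V ι Lf em rp hRp
  obtain ⟨Ba, hBa, hQA⟩ := hQAG C L Bs K inc th hDat V cd hV
  obtain ⟨Bm, hBm, hQM⟩ := hQDG C L Bs K inc th hDat V cd hV
  obtain ⟨Bt, hBt, hFR⟩ := Pool.Agent.Q224.ESM.frx K
  choose Bd hBd hnrm using fun c => hNRM (L c) (Bs c) K (inc c) (th c)
  let B : ℕ := B1 * (∏ c, Bd c) * Bz * Bt * Ba * Bm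
  have hB0 : B ≠ 0 := by
    have h1 : ∏ c, Bd c ≠ 0 := Finset.prod_ne_zero_iff.2 fun c _ => hBd c
    exact mul_ne_zero (mul_ne_zero (mul_ne_zero (mul_ne_zero (mul_ne_zero hB1 h1) hBz) hBt) hBa) hBm
  have dm : Bm ∣ B := Dvd.intro_left _ rfl
  have d5 : B1 * (∏ c, Bd c) * Bz * Bt * Ba ∣ B := Dvd.intro _ rfl
  have da : Ba ∣ B := (Dvd.intro_left _ rfl).trans d5
  have d4 : B1 * (∏ c, Bd c) * Bz * Bt ∣ B := (Dvd.intro _ rfl).trans d5
  have dt : Bt ∣ B := (Dvd.intro_left _ rfl).trans d4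
  have d3 : B1 * (∏ c, Bd c) * Bz ∣ B := (Dvd.intro _ rfl).trans d4
  have dz : Bz ∣ B := (Dvd.intro_left _ rfl).trans d3
  have d2 : B1 * (∏ c, Bd c) ∣ B := (Dvd.intro _ rfl).trans d3
  have dp : (∏ c, Bd c) ∣ B := (Dvd.intro_left _ rfl).trans d2
  have d1 : B1 ∣ B := (Dvd.intro _ rfl).trans d2
  have dd : ∀ c, Bd c ∣ B := fun c => (Finset.dvd_prod_of_mem Bd (mem_univ c)).trans dp
  obtain ⟨Qa, hQA⟩ := hQA B da hB0
  have hQM := hQM B dm hB0
  refine ⟨B, C0, K0, dvs B, Fintype.piFinset Qa, d1, hB0, hC0, ?_⟩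
  intro D δ hD hδ hgd
  have hD0 : D ≠ 0 := hD.ne_zero
  choose α η hα hη hαe hgdα hval using
    fun c => hnrm c B (dd c) D (δ c) (hδ c) (gd1_mono (hgd c) d1)
  let R : Finset ℕ := D.natAbs.primeFactors.filter fun l => ¬ l ∣ B
  have hR : ∀ l, l ∈ R ↔ l.Prime ∧ (l : ℤ) ∣ D ∧ ¬ l ∣ B := by
    intro l
    rw [Finset.mem_filter, Nat.mem_primeFactors, Int.natCast_dvd]
    constructor
    · rintro ⟨⟨h1, h2, -⟩, h3⟩
      exact ⟨h1, h2, h3⟩
    · rintro ⟨h1, h2, h3⟩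
      exact ⟨⟨h1, h2, Int.natAbs_ne_zero.2 hD0⟩, h3⟩
  have hex : ∀ l ∈ R, ∀ w : HeightOneSpectrum (𝓞 K), Abv w l → ∃ t : V, TpG cd α w t := by
    intro l hl w hw
    obtain ⟨h1, h2, h3⟩ := (hR l).1 hl
    obtain ⟨-, -, h4⟩ := hFR l h1 fun h' => h3 (h'.trans dt)
    obtain ⟨⟨F, hF⟩, -⟩ := h4 w hw
    choose e he1 he2 he3 he4 using fun c => (hgdα c).odd l h1 h3 h2 w hw F hF
    obtain ⟨t, ht⟩ := (hV.im e).2 he1
    refine ⟨t, fun c ι' => ⟨fun h => ?_, fun h => ?_⟩⟩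
    · rw [ht] at h
      exact val_of_par0 ((he3 c ι').1 h) (hval c l h1 h3 w hw ι')
    · rw [ht] at h
      exact val_of_par1 ((he3 c ι').2 h) (hval c l h1 h3 w hw ι')
  let τ : HeightOneSpectrum (𝓞 K) → V := fun w =>
    if h : ∃ t : V, TpG cd α w t then h.choose else 0
  have hτ : ∀ l ∈ R, ∀ w : HeightOneSpectrum (𝓞 K), Abv w l → TpG cd α w (τ w) := by
    intro l hl w hw
    have hex' := hex l hl w hw
    have h1 : τ w = hex'.choose := dif_pos hex'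
    rw [h1]
    exact hex'.choose_spec
  obtain ⟨z, hz1, hz2, hz3, hz4, N, hN1, hN2⟩ := hZEX R τ
    (fun l hl => ⟨((hR l).1 hl).1, fun h' => ((hR l).1 hl).2.2 (h'.trans dz)⟩)
    (by
      intro l hl w w' g hw hMv
      have hw' : Abv w' l := (hMv (l : 𝓞 K) (l : 𝓞 K) (by simp)).1 hw
      exact tpg_unique hV (hτ l hl w' hw') (tpg_mv hV hMv (hτ l hl w hw)))
  have hRel0 : RG0 inc th cd B D α z := by
    refine ⟨hD, hgdα, hα, fun l hl hlB w hw c ι' => hval c l hl hlB w hw ι', hz1, hz2, ?_⟩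
    intro l hl hlB w hw t
    have h1 := hz4 l hl (fun h' => hlB (h'.trans dz)) w hw t
    have h2 : (l : ℤ) ∣ D ∧ TpG cd α w t ↔ l ∈ R ∧ τ w = t := by
      constructor
      · rintro ⟨h3, h4⟩
        have h5 : l ∈ R := (hR l).2 ⟨hl, h3, hlB⟩
        exact ⟨h5, tpg_unique hV (hτ l h5 w hw) h4⟩
      · rintro ⟨h3, rfl⟩
        exact ⟨((hR l).1 h3).2.1, hτ l h3 w hw⟩
    rw [h2]
    exact h1
  choose a ha q hq hqe using fun c => hQA D α z hRel0 c
  obtain ⟨μ, s, hμ, hs, hse⟩ := hQM D α z hRel0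
  refine ⟨μ, mem_dvs hB0 hμ, a, Fintype.mem_piFinset.2 ha, α, z,
    ⟨hRel0, fun c => ⟨q c, hq c, hqe c⟩, ⟨s, hs, hse⟩⟩, hz3, ⟨N, hN1, ?_⟩,
    fun c => ⟨η c, hη c, hαe c⟩⟩
  refine hN2.trans (mul_le_mul_of_nonneg_left ?_ hC0.le)
  have h1 : ∏ l ∈ R, l ∣ D.natAbs :=
    (Finset.prod_dvd_prod_of_subset _ _ _ (Finset.filter_subset _ _)).trans
      (Nat.prod_primeFactors_dvd _)
  have h2 := Nat.le_of_dvd (Int.natAbs_pos.2 hD0) h1
  calc ∏ l ∈ R, (l : ℝ) = ((∏ l ∈ R, l : ℕ) : ℝ) := by push_cast; rfl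
    _ ≤ (D.natAbs : ℝ) := by exact_mod_cast h2

end Pool.Agent.Q96.ESG
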